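import Pool.Agent.Lib.MP_47effe_an.Wt
import Pool.Agent.Lib.MP_47effe_an.Two

/-!
# Compact actions: definitions
-/

namespace QWEP

variable {A L : Type} [CStarAlgebra A] [Group L]

/-- `(A, τ)` is hyperfinite: unital matrix algebras in `A` approximate all finite subsets in the 2-norm. -/
def Hyperfinite (τ : A →ₗ[ℂ] ℂ) : Prop :=
  ∀ (D : Finset A) (ε : ℝ), 0 < ε → ∃ (n : ℕ) (φ : Matrix (Fin n) (Fin n) ℂ →⋆ₐ[ℂ] A), ∀ x ∈ D, ∃ b, n2 τ (x - φ b) ≤ ε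

/-- All orbits are totally bounded in the 2-norm. -/
def CompactAction (γ : L →* (A ≃⋆ₐ[ℂ] A)) (τ : A →ₗ[ℂ] ℂ) : Prop :=
  ∀ (x : A) (ε : ℝ), 0 < ε → ∃ C : Finset L, ∀ g, ∃ c ∈ C, n2 τ (γ g x - γ c x) ≤ ε

/-- The normalized matrix units `√n φ(e_ij)`. -/
noncomputable def mu {n : ℕ} (φ : Matrix (Fin n) (Fin n) ℂ →⋆ₐ[ℂ] A) (p : Fin n × Fin n) : A :=
  (Real.sqrt n : ℂ) • φ (Matrix.single p.1 p.2 1)

end QWEP
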