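import Pool.Agent.Lib.MP_47effe_an.K.Defs

/-!
# Compact actions: the covariant GNS representation
-/

namespace QWEP

open scoped InnerProductSpace ComplexOrder
open UniformSpace Completion

section

variable {A : Type} [CStarAlgebra A] [PartialOrder A] [StarOrderedRing A] (f : A →ₚ[ℂ] ℂ)

/-- The map `x ↦ θ x` on the pre-GNS space. -/
private noncomputable def wmap (θ : A ≃⋆ₐ[ℂ] A) (hθ : ∀ x, f (θ x) = f x) : f.PreGNS →L[ℂ] f.PreGNS :=
  LinearMap.mkContinuous
    { toFun := fun x => f.toPreGNS (θ (f.ofPreGNS x))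
      map_add' := fun x y => by rw [map_add, map_add, map_add]
      map_smul' := fun c x => by rw [map_smul, map_smul, map_smul, RingHom.id_apply] } 1 fun x => by
    rw [one_mul]
    change ‖f.toPreGNS (θ (f.ofPreGNS x))‖ ≤ ‖f.toPreGNS (f.ofPreGNS x)‖
    rw [gns_norm, gns_norm, ← map_star, ← map_mul, hθ]

private theorem wmap_apply (θ : A ≃⋆ₐ[ℂ] A) (hθ : ∀ x, f (θ x) = f x) (x : f.PreGNS) :
    wmap f θ hθ x = f.toPreGNS (θ (f.ofPreGNS x)) := rfl

private theorem wc_apply (θ : A ≃⋆ₐ[ℂ] A) (hθ : ∀ x, f (θ x) = f x) (x : f.PreGNS) :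
    (wmap f θ hθ).completion (x : f.GNS) = ((f.toPreGNS (θ (f.ofPreGNS x)) : f.PreGNS) : f.GNS) := by
  rw [ContinuousLinearMap.completion_apply_coe, wmap_apply]

private theorem wc_mul (θ₁ θ₂ θ₃ : A ≃⋆ₐ[ℂ] A) (h₁ : ∀ x, f (θ₁ x) = f x) (h₂ : ∀ x, f (θ₂ x) = f x)
    (h₃ : ∀ x, f (θ₃ x) = f x) (h : ∀ x, θ₁ (θ₂ x) = θ₃ x) :
    (wmap f θ₁ h₁).completion * (wmap f θ₂ h₂).completion = (wmap f θ₃ h₃).completion := by
  ext c
  induction c using induction_on with
  | hp => apply isClosed_eq <;> fun_prop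
  | ih c =>
    rw [ContinuousLinearMap.mul_apply, wc_apply, wc_apply, wc_apply, PositiveLinearMap.ofPreGNS_toPreGNS, h]

private theorem wc_one (θ : A ≃⋆ₐ[ℂ] A) (hθ : ∀ x, f (θ x) = f x) (h : ∀ x, θ x = x) :
    (wmap f θ hθ).completion = 1 := by
  ext c
  induction c using induction_on with
  | hp => apply isClosed_eq <;> fun_prop
  | ih c =>
    rw [wc_apply, h, PositiveLinearMap.toPreGNS_ofPreGNS, ContinuousLinearMap.one_apply]

private theorem wc_star (θ₁ θ₂ : A ≃⋆ₐ[ℂ] A) (h₁ : ∀ x, f (θ₁ x) = f x) (h₂ : ∀ x, f (θ₂ x) = f x)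
    (h : ∀ x, θ₁ (θ₂ x) = x) : star (wmap f θ₁ h₁).completion = (wmap f θ₂ h₂).completion := by
  symm
  rw [ContinuousLinearMap.star_eq_adjoint, ContinuousLinearMap.eq_adjoint_iff]
  intro x y
  induction x, y using induction_on₂ with
  | hp => apply isClosed_eq <;> fun_prop
  | ih x y =>
    rw [wc_apply, wc_apply, inner_coe, inner_coe, PositiveLinearMap.preGNS_inner_def, PositiveLinearMap.preGNS_inner_def,
      PositiveLinearMap.ofPreGNS_toPreGNS, PositiveLinearMap.ofPreGNS_toPreGNS, ← h₁, map_mul, map_star, h]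

end

theorem exists_gns {A L : Type} [CStarAlgebra A] [Group L] {τ : A →ₗ[ℂ] ℂ} {γ : L →* (A ≃⋆ₐ[ℂ] A)} (hτ : TracialState τ)
    (hγ : ∀ g x, τ (γ g x) = τ x) :
    ∃ (V : Type) (_ : NormedAddCommGroup V) (_ : InnerProductSpace ℂ V) (_ : CompleteSpace V)
      (π : A →⋆ₐ[ℂ] (V →L[ℂ] V)) (U : L →* unitary (V →L[ℂ] V)) (j : A →ₗ[ℂ] V),
      (∀ g x, π (γ g x) = U g * π x * star (U g : V →L[ℂ] V)) ∧ (∀ x y, ⟪j x, j y⟫_ℂ = τ (star x * y)) ∧
        (∀ x y, π x (j y) = j (x * y)) ∧ ∀ g x, (U g : V →L[ℂ] V) (j x) = j (γ g x) := by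
  obtain ⟨_, _, f, hf⟩ := exists_pos hτ
  have hfγ : ∀ g x, f (γ g x) = f x := fun g x => by rw [hf, hf, hγ]
  have hgi : ∀ g x, γ g (γ g⁻¹ x) = x := fun g x => by
    rw [← StarAlgEquiv.mul_apply, ← map_mul, mul_inv_cancel, map_one, StarAlgEquiv.one_apply]
  have hig : ∀ g x, γ g⁻¹ (γ g x) = x := fun g x => by
    rw [← StarAlgEquiv.mul_apply, ← map_mul, inv_mul_cancel, map_one, StarAlgEquiv.one_apply]
  have hst : ∀ g, star (wmap f (γ g) (hfγ g)).completion = (wmap f (γ g⁻¹) (hfγ g⁻¹)).completion :=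
    fun g => wc_star f _ _ _ _ (hgi g)
  have h1 : ∀ x, f ((1 : A ≃⋆ₐ[ℂ] A) x) = f x := fun x => by rw [StarAlgEquiv.one_apply]
  refine ⟨f.GNS, inferInstance, inferInstance, inferInstance, f.gnsStarAlgHom,
    { toFun := fun g => ⟨(wmap f (γ g) (hfγ g)).completion, ?_⟩
      map_one' := ?_
      map_mul' := ?_ },
    { toFun := fun x => ((f.toPreGNS x : f.PreGNS) : f.GNS)
      map_add' := fun x y => by rw [map_add, coe_add]
      map_smul' := fun c x => by rw [map_smul, coe_smul, RingHom.id_apply] }, ?_, ?_, ?_, ?_⟩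
  · rw [Unitary.mem_iff, hst]
    constructor
    · rw [wc_mul f _ _ 1 _ _ h1 (fun x => by rw [hig, StarAlgEquiv.one_apply])]
      exact wc_one f _ _ fun x => StarAlgEquiv.one_apply x
    · rw [wc_mul f _ _ 1 _ _ h1 (fun x => by rw [hgi, StarAlgEquiv.one_apply])]
      exact wc_one f _ _ fun x => StarAlgEquiv.one_apply x
  · apply Subtype.ext
    exact wc_one f _ _ fun x => by rw [map_one, StarAlgEquiv.one_apply]
  · intro g h
    apply Subtype.ext
    exact (wc_mul f _ _ _ _ _ _ fun x => by rw [map_mul, StarAlgEquiv.mul_apply]).symm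
  · intro g x
    change f.gnsStarAlgHom (γ g x) =
      (wmap f (γ g) (hfγ g)).completion * f.gnsStarAlgHom x * star (wmap f (γ g) (hfγ g)).completion
    rw [hst]
    ext c
    induction c using induction_on with
    | hp => apply isClosed_eq <;> fun_prop
    | ih c =>
      rw [ContinuousLinearMap.mul_apply, ContinuousLinearMap.mul_apply, wc_apply]
      change f.gnsNonUnitalStarAlgHom (γ g x) (c : f.GNS) = (wmap f (γ g) (hfγ g)).completion
        (f.gnsNonUnitalStarAlgHom x ((f.toPreGNS (γ g⁻¹ (f.ofPreGNS c)) : f.PreGNS) : f.GNS))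
      rw [PositiveLinearMap.gnsNonUnitalStarAlgHom_apply_coe, PositiveLinearMap.gnsNonUnitalStarAlgHom_apply_coe,
        wc_apply, PositiveLinearMap.leftMulMapPreGNS_apply, PositiveLinearMap.leftMulMapPreGNS_apply,
        PositiveLinearMap.ofPreGNS_toPreGNS, PositiveLinearMap.ofPreGNS_toPreGNS, map_mul (γ g), hgi]
  · intro x y
    change ⟪((f.toPreGNS x : f.PreGNS) : f.GNS), ((f.toPreGNS y : f.PreGNS) : f.GNS)⟫_ℂ = τ (star x * y)
    rw [inner_coe, PositiveLinearMap.preGNS_inner_def, PositiveLinearMap.ofPreGNS_toPreGNS,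
      PositiveLinearMap.ofPreGNS_toPreGNS, hf]
  · intro x y
    change f.gnsNonUnitalStarAlgHom x ((f.toPreGNS y : f.PreGNS) : f.GNS) = ((f.toPreGNS (x * y) : f.PreGNS) : f.GNS)
    rw [PositiveLinearMap.gnsNonUnitalStarAlgHom_apply_coe, PositiveLinearMap.leftMulMapPreGNS_apply,
      PositiveLinearMap.ofPreGNS_toPreGNS]
  · intro g x
    change (wmap f (γ g) (hfγ g)).completion ((f.toPreGNS x : f.PreGNS) : f.GNS) = _
    rw [wc_apply, PositiveLinearMap.ofPreGNS_toPreGNS]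
    rfl

end QWEP
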