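import Pool.Agent.Lib.MP_47effe_an.K.Defs

/-!
# Compact actions: common nets for finitely many elements
-/

namespace QWEP

variable {A L : Type} [CStarAlgebra A] [Group L] {τ : A →ₗ[ℂ] ℂ} {γ : L →* (A ≃⋆ₐ[ℂ] A)}

theorem n2_neg (x : A) : n2 τ (-x) = n2 τ x := by
  rw [n2, n2, star_neg, neg_mul_neg]

theorem joint_net (hτ : TracialState τ) (h : CompactAction γ τ) (D : Finset A) {ε : ℝ} (hε : 0 < ε) :
    ∃ C : Finset L, ∀ g, ∃ c ∈ C, ∀ x ∈ D, n2 τ (γ g x - γ c x) ≤ ε := by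
  classical
  have h1 : ∀ x : A, ∃ C : Finset L, ∀ g, ∃ c ∈ C, n2 τ (γ g x - γ c x) ≤ ε / 2 :=
    fun x => h x (ε / 2) (half_pos hε)
  choose C hC using h1
  choose c hcC hc using hC
  let F : L → (D → L) := fun g x => c x g
  have hfin : (Set.range F).Finite := by
    refine (Set.Finite.pi (t := fun x : D => (C x : Set L)) fun x => (C x).finite_toSet).subset ?_
    rintro _ ⟨g, rfl⟩
    intro x _
    exact hcC x g
  have h2 : ∀ y : D → L, ∃ r : L, y ∈ Set.range F → F r = y := by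
    intro y
    by_cases hy : y ∈ Set.range F
    · obtain ⟨g, hg⟩ := hy
      exact ⟨g, fun _ => hg⟩
    · exact ⟨1, fun h => absurd h hy⟩
  choose r hr using h2
  refine ⟨hfin.toFinset.image r, fun g => ⟨r (F g),
    Finset.mem_image_of_mem r (hfin.mem_toFinset.mpr ⟨g, rfl⟩), fun x hx => ?_⟩⟩
  have e : F (r (F g)) = F g := hr (F g) ⟨g, rfl⟩
  have e1 : c x (r (F g)) = c x g := congrFun e ⟨x, hx⟩
  have a1 := hc x g
  have a2 := hc x (r (F g))
  rw [e1] at a2
  have e2 : γ g x - γ (r (F g)) x = (γ g x - γ (c x g) x) + -(γ (r (F g)) x - γ (c x g) x) := by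
    abel
  rw [e2]
  refine (n2_add hτ _ _).trans ?_
  rw [n2_neg]
  linarith

end QWEP
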