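import Pool.Agent.Lib.MP_47effe_an.K.Defs

/-!
# Compact actions: the normalized matrix units
-/

namespace QWEP

open scoped InnerProductSpace ComplexConjugate

variable {A : Type} [CStarAlgebra A] {τ : A →ₗ[ℂ] ℂ} {n : ℕ} (φ : Matrix (Fin n) (Fin n) ℂ →⋆ₐ[ℂ] A)

private theorem star_mu (p : Fin n × Fin n) : star (mu φ p) = (Real.sqrt n : ℂ) • φ (Matrix.single p.2 p.1 1) := by
  rw [mu, star_smul, ← map_star, Matrix.star_eq_conjTranspose, Matrix.conjTranspose_single, star_one]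
  congr 1
  exact Complex.conj_ofReal _

private theorem sqrt_sq_c (n : ℕ) : (Real.sqrt n : ℂ) * (Real.sqrt n : ℂ) = (n : ℂ) := by
  rw [← Complex.ofReal_mul, Real.mul_self_sqrt (Nat.cast_nonneg n)]
  simp

include φ in
theorem mu_pos (hτ : TracialState τ) : 0 < n := by
  rcases Nat.eq_zero_or_pos n with h | h
  · subst h
    exfalso
    have h1 : (1 : A) = 0 := by
      rw [← map_one φ, Subsingleton.elim (1 : Matrix (Fin 0) (Fin 0) ℂ) 0, map_zero]
    have h2 := hτ.one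
    rw [h1, map_zero] at h2
    exact zero_ne_one h2
  · exact h

private theorem tr_ne (hτ : TracialState τ) {i j : Fin n} (h : i ≠ j) : τ (φ (Matrix.single i j 1)) = 0 := by
  have h1 : Matrix.single i j (1 : ℂ) = Matrix.single i j 1 * Matrix.single j j 1 := by
    rw [Matrix.single_mul_single_same, one_mul]
  rw [h1, map_mul, hτ.comm, ← map_mul, Matrix.single_mul_single_of_ne _ _ _ _ (Ne.symm h), map_zero, map_zero]

private theorem tr_eq (hτ : TracialState τ) (i j : Fin n) :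
    τ (φ (Matrix.single i i 1)) = τ (φ (Matrix.single j j 1)) := by
  have h1 : Matrix.single i i (1 : ℂ) = Matrix.single i j 1 * Matrix.single j i 1 := by
    rw [Matrix.single_mul_single_same, one_mul]
  have h2 : Matrix.single j j (1 : ℂ) = Matrix.single j i 1 * Matrix.single i j 1 := by
    rw [Matrix.single_mul_single_same, one_mul]
  rw [h1, map_mul, hτ.comm, ← map_mul, ← h2]

private theorem sum_diag : ∑ i : Fin n, Matrix.single i i (1 : ℂ) = 1 := by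
  ext a b
  rw [Matrix.sum_apply, Matrix.one_apply]
  simp only [Matrix.single_apply]
  by_cases h : a = b
  · subst h
    simp
  · rw [if_neg h]
    refine Finset.sum_eq_zero fun i _ => if_neg ?_
    rintro ⟨h1, h2⟩
    exact h (h1.symm.trans h2)

private theorem tr_diag (hτ : TracialState τ) (i : Fin n) : (n : ℂ) * τ (φ (Matrix.single i i 1)) = 1 := by
  have h1 : τ (φ (∑ j : Fin n, Matrix.single j j (1 : ℂ))) = 1 := by
    rw [sum_diag, map_one, hτ.one]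
  rw [map_sum, map_sum, Finset.sum_congr rfl fun j _ => tr_eq φ hτ j i, Finset.sum_const, Finset.card_univ,
    Fintype.card_fin, nsmul_eq_mul] at h1
  exact h1

theorem mu_ortho (hτ : TracialState τ) (p q : Fin n × Fin n) : τ (star (mu φ p) * mu φ q) = if p = q then 1 else 0 := by
  rw [star_mu, mu, smul_mul_smul_comm, sqrt_sq_c, map_smul, ← map_mul, smul_eq_mul]
  obtain ⟨i, j⟩ := p
  obtain ⟨k, l⟩ := q
  dsimp only
  by_cases h1 : i = k
  · subst h1
    rw [Matrix.single_mul_single_same, one_mul]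
    by_cases h2 : j = l
    · subst h2
      rw [if_pos rfl]
      exact tr_diag φ hτ j
    · rw [if_neg fun h => h2 (Prod.ext_iff.1 h).2, tr_ne φ hτ h2, mul_zero]
  · rw [if_neg fun h => h1 (Prod.ext_iff.1 h).1, Matrix.single_mul_single_of_ne _ _ _ _ h1, map_zero, map_zero, mul_zero]

theorem mu_sum : ∑ p, mu φ p * star (mu φ p) = ((n : ℂ) ^ 2) • (1 : A) := by
  have h1 : ∀ p : Fin n × Fin n, mu φ p * star (mu φ p) = (n : ℂ) • φ (Matrix.single p.1 p.1 1) := fun p => by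
    rw [star_mu, mu, smul_mul_smul_comm, sqrt_sq_c, ← map_mul, Matrix.single_mul_single_same, one_mul]
  rw [Finset.sum_congr rfl fun p _ => h1 p, ← Finset.smul_sum, Fintype.sum_prod_type]
  dsimp only
  rw [Finset.sum_congr rfl fun i _ => by rw [Finset.sum_const, Finset.card_univ, Fintype.card_fin], ← Finset.smul_sum,
    ← map_sum, sum_diag, map_one, sq, mul_smul]
  congr 1
  rw [Nat.cast_smul_eq_nsmul]

theorem mu_trace (hτ : TracialState τ) (x : A) : ∑ p, τ (star (mu φ p) * (x * mu φ p)) = (n : ℂ) ^ 2 * τ x := by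
  have h1 : ∀ p : Fin n × Fin n, τ (star (mu φ p) * (x * mu φ p)) = τ (x * (mu φ p * star (mu φ p))) := fun p => by
    rw [hτ.comm, mul_assoc]
  rw [Finset.sum_congr rfl fun p _ => h1 p, ← map_sum, ← Finset.mul_sum, mu_sum, mul_smul_comm, mul_one, map_smul,
    smul_eq_mul]

private theorem bes {E ι : Type*} [SeminormedAddCommGroup E] [InnerProductSpace ℂ E] [Fintype ι] {v : ι → E}
    (hv : Orthonormal ℂ v) (x : E) (d : ι → ℂ) :
    ‖x‖ ^ 2 - ∑ i, ‖⟪v i, x⟫_ℂ‖ ^ 2 ≤ ‖x - ∑ i, d i • v i‖ ^ 2 := by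
  have h1 := norm_sub_sq (𝕜 := ℂ) x (∑ i, d i • v i)
  have h2 : ⟪x, ∑ i, d i • v i⟫_ℂ = ∑ i, d i * conj ⟪v i, x⟫_ℂ := by
    rw [inner_sum]
    refine Finset.sum_congr rfl fun i _ => ?_
    rw [inner_smul_right, inner_conj_symm]
  have h3 : ‖∑ i, d i • v i‖ ^ 2 = ∑ i, ‖d i‖ ^ 2 := by
    have h4 := hv.inner_sum d d Finset.univ
    rw [norm_sq_eq_re_inner (𝕜 := ℂ), h4, map_sum]
    refine Finset.sum_congr rfl fun i _ => ?_
    rw [mul_comm, Complex.mul_conj, Complex.normSq_eq_norm_sq]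
    exact Complex.ofReal_re _
  rw [h1, h2, h3]
  have h6 : 0 ≤ ∑ i, ‖⟪v i, x⟫_ℂ - d i‖ ^ 2 := Finset.sum_nonneg fun i _ => sq_nonneg _
  have h7 : ∀ i, ‖⟪v i, x⟫_ℂ - d i‖ ^ 2 = ‖⟪v i, x⟫_ℂ‖ ^ 2 - 2 * (d i * conj ⟪v i, x⟫_ℂ).re + ‖d i‖ ^ 2 := fun i => by
    rw [← Complex.normSq_eq_norm_sq, ← Complex.normSq_eq_norm_sq, ← Complex.normSq_eq_norm_sq, Complex.normSq_sub]
    rw [← Complex.conj_re (⟪v i, x⟫_ℂ * conj (d i)), map_mul, Complex.conj_conj, mul_comm (conj ⟪v i, x⟫_ℂ)]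
    ring
  rw [Finset.sum_congr rfl fun i _ => h7 i, Finset.sum_add_distrib, Finset.sum_sub_distrib, ← Finset.mul_sum] at h6
  have h8 : RCLike.re (∑ i, d i * conj ⟪v i, x⟫_ℂ) = ∑ i, (d i * conj ⟪v i, x⟫_ℂ).re := by
    rw [map_sum]
    rfl
  rw [h8]
  linarith

private theorem n2_sq (hτ : TracialState τ) (x : A) : ((n2 τ x ^ 2 : ℝ) : ℂ) = τ (star x * x) := by
  have h1 := hτ.pos x
  rw [Complex.le_def] at h1
  have h2 : n2 τ x ^ 2 = (τ (star x * x)).re := Real.sq_sqrt (by simpa using h1.1)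
  rw [h2]
  refine Complex.ext (Complex.ofReal_re _) ?_
  rw [Complex.ofReal_im]
  simpa using h1.2

private theorem span_mu (b : Matrix (Fin n) (Fin n) ℂ) (p : Fin n × Fin n) :
    ∃ d : Fin n × Fin n → ℂ, φ b * mu φ p = ∑ q, d q • mu φ q := by
  obtain ⟨M, hM⟩ : ∃ M : Matrix (Fin n) (Fin n) ℂ, M = b * Matrix.single p.1 p.2 1 := ⟨_, rfl⟩
  refine ⟨fun q => M q.1 q.2, ?_⟩
  have h1 : φ M = ∑ q : Fin n × Fin n, M q.1 q.2 • φ (Matrix.single q.1 q.2 1) := by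
    conv_lhs => rw [Matrix.matrix_eq_sum_single M]
    rw [map_sum, Fintype.sum_prod_type]
    refine Finset.sum_congr rfl fun i _ => ?_
    rw [map_sum]
    refine Finset.sum_congr rfl fun j _ => ?_
    rw [← map_smul, Matrix.smul_single, smul_eq_mul, mul_one]
  rw [mu, mul_smul_comm, ← map_mul, ← hM, h1, Finset.smul_sum]
  refine Finset.sum_congr rfl fun q _ => ?_
  rw [mu, smul_comm]

theorem mu_est (hτ : TracialState τ) {v : A} (hv : v ∈ unitary A) {b : Matrix (Fin n) (Fin n) ℂ} {δ : ℝ}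
    (h : n2 τ (v - φ b) ≤ δ) :
    (1 - δ ^ 2) * (n : ℝ) ^ 2 ≤ ∑ p, ∑ q, ‖τ (star (mu φ q) * (v * mu φ p))‖ ^ 2 := by
  have hb : ∀ p, 1 - n2 τ ((v - φ b) * mu φ p) ^ 2 ≤ ∑ q, ‖τ (star (mu φ q) * (v * mu φ p))‖ ^ 2 := by
    intro p
    obtain ⟨_, _, f, hf⟩ := exists_pos hτ
    have h1 : ∀ x, n2 τ x = ‖f.toPreGNS x‖ := fun x => by rw [gns_norm, hf]; rfl
    have h2 : ∀ x y, ⟪f.toPreGNS x, f.toPreGNS y⟫_ℂ = τ (star x * y) := fun x y => by
      rw [PositiveLinearMap.preGNS_inner_def]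
      exact hf _
    have h3 : Orthonormal ℂ fun q => f.toPreGNS (mu φ q) := by
      rw [orthonormal_iff_ite]
      intro q q'
      rw [h2, mu_ortho φ hτ]
    obtain ⟨d, hd⟩ := span_mu φ b p
    have h4 := bes h3 (f.toPreGNS (v * mu φ p)) d
    have h5 : f.toPreGNS (v * mu φ p) - ∑ i, d i • f.toPreGNS (mu φ i) = f.toPreGNS ((v - φ b) * mu φ p) := by
      rw [sub_mul, hd, map_sub, map_sum]
      simp only [map_smul]
    have h6 : ‖f.toPreGNS (v * mu φ p)‖ ^ 2 = 1 := by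
      rw [← h1]
      have h7 := n2_sq hτ (v * mu φ p)
      rw [star_mul, mul_assoc, ← mul_assoc (star v), Unitary.star_mul_self_of_mem hv, one_mul, mu_ortho φ hτ,
        if_pos rfl] at h7
      exact_mod_cast h7
    rw [h5, h6, ← h1] at h4
    simp only [h2] at h4
    linarith
  have h1 : ∑ p, (1 - n2 τ ((v - φ b) * mu φ p) ^ 2) ≤ ∑ p, ∑ q, ‖τ (star (mu φ q) * (v * mu φ p))‖ ^ 2 :=
    Finset.sum_le_sum fun p _ => hb p
  refine le_trans ?_ h1
  have h2 : ((∑ p, n2 τ ((v - φ b) * mu φ p) ^ 2 : ℝ) : ℂ) = (((n : ℝ) ^ 2 * n2 τ (v - φ b) ^ 2 : ℝ) : ℂ) := by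
    rw [Complex.ofReal_sum, Finset.sum_congr rfl fun p _ => n2_sq hτ ((v - φ b) * mu φ p), Complex.ofReal_mul, n2_sq hτ]
    have h3 := mu_trace φ hτ (star (v - φ b) * (v - φ b))
    rw [show ((((n : ℝ) ^ 2 : ℝ)) : ℂ) = (n : ℂ) ^ 2 by push_cast; rfl, ← h3]
    refine Finset.sum_congr rfl fun p _ => ?_
    rw [star_mul]
    simp only [mul_assoc]
  have h3 : ∑ p, n2 τ ((v - φ b) * mu φ p) ^ 2 = (n : ℝ) ^ 2 * n2 τ (v - φ b) ^ 2 := by exact_mod_cast h2
  rw [Finset.sum_sub_distrib, h3, Finset.sum_const, Finset.card_univ, Fintype.card_prod, Fintype.card_fin, nsmul_eq_mul,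
    mul_one]
  have h4 : n2 τ (v - φ b) ^ 2 ≤ δ ^ 2 := pow_le_pow_left₀ (n2_nonneg _) h 2
  have h5 : (0 : ℝ) ≤ (n : ℝ) ^ 2 := by positivity
  push_cast
  nlinarith [mul_le_mul_of_nonneg_left h4 h5]

end QWEP
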