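import Pool.Agent.Lib.MP_47effe_an.Wt

/-! The Schmidt decomposition of a finite family of unit vectors. -/

namespace QWEP

open scoped InnerProductSpace

private lemma bess {I : Type} [Fintype I] {d : ℕ} {w : Fin d → I → ℂ}
    (hw : ∀ k l, ∑ a, star (w k a) * w l a = if k = l then 1 else 0) (z : I → ℂ) :
    ∑ k, ‖∑ a, star (w k a) * z a‖ ^ 2 ≤ ∑ a, ‖z a‖ ^ 2 := by
  classical
  have ho : Orthonormal ℂ (fun k => (WithLp.toLp 2 (w k) : EuclideanSpace ℂ I)) := by
    rw [orthonormal_iff_ite]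
    intro k l
    rw [PiLp.inner_apply, ← hw k l]
    exact Finset.sum_congr rfl fun a _ => by simp [mul_comm]
  have h := ho.sum_inner_products_le (WithLp.toLp 2 z : EuclideanSpace ℂ I) (s := Finset.univ)
  rw [EuclideanSpace.norm_sq_eq] at h
  refine le_trans (le_of_eq ?_) (h.trans (le_of_eq rfl))
  refine Finset.sum_congr rfl fun k _ => ?_
  rw [PiLp.inner_apply]
  congr 2
  exact Finset.sum_congr rfl fun a _ => by simp [mul_comm]

private lemma diag {I : Type} [Fintype I] [DecidableEq I] (G : Matrix I I ℂ) (hG : G.IsHermitian) :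
    ∃ (φ : I → I → ℂ) (lam : I → ℝ), (∀ k l, ∑ a, star (φ k a) * φ l a = if k = l then 1 else 0) ∧
      (∀ a b, ∑ k, φ k a * star (φ k b) = if a = b then 1 else 0) ∧
      ∀ k a, ∑ b, G a b * φ k b = (lam k : ℂ) * φ k a := by
  refine ⟨fun k a => hG.eigenvectorBasis k a, hG.eigenvalues, fun k l => ?_, fun a b => ?_, fun k a => ?_⟩
  · have h := orthonormal_iff_ite.1 hG.eigenvectorBasis.orthonormal k l
    rw [PiLp.inner_apply] at h
    rw [← h]
    exact Finset.sum_congr rfl fun a _ => by simp [mul_comm]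
  · have h := hG.eigenvectorBasis.sum_inner_mul_inner (EuclideanSpace.single a (1 : ℂ)) (EuclideanSpace.single b (1 : ℂ))
    have h2 : ⟪(EuclideanSpace.single a (1 : ℂ) : EuclideanSpace ℂ I), EuclideanSpace.single b (1 : ℂ)⟫_ℂ = if a = b then 1 else 0 := by
      simp [PiLp.inner_apply, eq_comm]
    rw [h2] at h
    rw [← h]
    exact Finset.sum_congr rfl fun k _ => by simp [PiLp.inner_apply]
  · have h := congrFun (hG.mulVec_eigenvectorBasis k) a
    simpa [Matrix.mulVec, dotProduct] using h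

theorem svd {V : Type} [NormedAddCommGroup V] [InnerProductSpace ℂ V] {I : Type} [Fintype I] [DecidableEq I] [Nonempty I]
    (η : I → V) (hη : ∀ a, ‖η a‖ = 1) :
    ∃ (d : ℕ) (v : Fin d → V) (w : Fin d → I → ℂ) (s : Fin d → ℝ), Orthonormal ℂ v ∧
      (∀ k l, ∑ a, star (w k a) * w l a = if k = l then 1 else 0) ∧ ∑ k, s k ^ 2 = 1 ∧
      ∀ a, η a = (Real.sqrt (Fintype.card I) : ℂ) • ∑ k, ((s k : ℂ) * w k a) • v k := by
  classical
  set N : ℝ := (Fintype.card I : ℝ) with hN
  have hN0 : 0 < N := by rw [hN]; exact_mod_cast Fintype.card_pos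
  have hNc : (N : ℂ) ≠ 0 := by exact_mod_cast hN0.ne'
  have hsq : (Real.sqrt N : ℂ) * (Real.sqrt N : ℂ) = (N : ℂ) := by
    rw [← Complex.ofReal_mul, Real.mul_self_sqrt hN0.le]
  have hs0 : (Real.sqrt N : ℂ) ≠ 0 := by
    intro h; rw [h, mul_zero] at hsq; exact hNc hsq.symm
  set G : Matrix I I ℂ := fun a b => ⟪η a, η b⟫_ℂ / N with hGd
  have hG : G.IsHermitian := Matrix.IsHermitian.ext fun a b => by
    simp only [hGd, RCLike.star_def, map_div₀, inner_conj_symm, Complex.conj_ofReal]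
  obtain ⟨φ, lam, h1, h2, h3⟩ := diag G hG
  set u : I → V := fun k => (Real.sqrt N : ℂ)⁻¹ • ∑ a, φ k a • η a with hu
  have huu : ∀ k l, ⟪u k, u l⟫_ℂ = if k = l then (lam l : ℂ) else 0 := by
    intro k l
    have e1 : ⟪u k, u l⟫_ℂ = ∑ a, star (φ k a) * ∑ b, G a b * φ l b := by
      simp only [hu, hGd, inner_smul_left, inner_smul_right, sum_inner, inner_sum, Finset.mul_sum, map_inv₀,
        Complex.conj_ofReal, RCLike.star_def]
      rw [Finset.sum_comm]
      refine Finset.sum_congr rfl fun a _ => Finset.sum_congr rfl fun b _ => ?_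
      rw [← hsq]
      field_simp
    rw [e1]
    simp only [h3]
    have e2 : ∑ a, star (φ k a) * ((lam l : ℂ) * φ l a) = (lam l : ℂ) * ∑ a, star (φ k a) * φ l a := by
      rw [Finset.mul_sum]; exact Finset.sum_congr rfl fun a _ => by ring
    rw [e2, h1]
    split_ifs <;> simp
  have hlam : ∀ k, lam k = ‖u k‖ ^ 2 := by
    intro k
    have h := huu k k
    rw [if_pos rfl, inner_self_eq_norm_sq_to_K] at h
    have h' : ((‖u k‖ ^ 2 : ℝ) : ℂ) = (lam k : ℂ) := by rw [← h]; push_cast; rfl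
    exact (Complex.ofReal_injective h').symm
  have htr : ∑ k, lam k = 1 := by
    have e1 : ∑ k, (lam k : ℂ) = ∑ a, G a a := by
      calc ∑ k, (lam k : ℂ) = ∑ k, ∑ a, star (φ k a) * ((lam k : ℂ) * φ k a) := by
            refine Finset.sum_congr rfl fun k _ => ?_
            have e2 : ∑ a, star (φ k a) * ((lam k : ℂ) * φ k a) = (lam k : ℂ) * ∑ a, star (φ k a) * φ k a := by
              rw [Finset.mul_sum]; exact Finset.sum_congr rfl fun a _ => by ring
            rw [e2, h1, if_pos rfl, mul_one]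
        _ = ∑ k, ∑ a, ∑ b, G a b * (φ k b * star (φ k a)) := by
            refine Finset.sum_congr rfl fun k _ => Finset.sum_congr rfl fun a _ => ?_
            rw [← h3, Finset.mul_sum]
            exact Finset.sum_congr rfl fun b _ => by ring
        _ = ∑ a, ∑ b, G a b * ∑ k, φ k b * star (φ k a) := by
            rw [Finset.sum_comm]
            refine Finset.sum_congr rfl fun a _ => ?_
            rw [Finset.sum_comm]
            exact Finset.sum_congr rfl fun b _ => by rw [Finset.mul_sum]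
        _ = ∑ a, G a a := by
            refine Finset.sum_congr rfl fun a _ => ?_
            simp only [h2]
            simp
    have e3 : ∀ a, G a a = 1 / N := by
      intro a
      simp only [hGd, inner_self_eq_norm_sq_to_K, hη a]
      simp
    simp only [e3] at e1
    have e4 : ∑ _a : I, (1 : ℂ) / N = 1 := by
      rw [Finset.sum_const, Finset.card_univ, nsmul_eq_mul]
      have : ((Fintype.card I : ℕ) : ℂ) = (N : ℂ) := by rw [hN]; push_cast; rfl
      rw [this, mul_one_div, div_self hNc]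
    rw [e4] at e1
    exact_mod_cast e1
  have hexp : ∀ a, η a = (Real.sqrt N : ℂ) • ∑ k, star (φ k a) • u k := by
    intro a
    simp only [hu, Finset.smul_sum, smul_smul]
    rw [Finset.sum_comm]
    have e1 : ∀ b, ∑ k, ((Real.sqrt N : ℂ) * (star (φ k a) * ((Real.sqrt N : ℂ)⁻¹ * φ k b))) • η b = (if b = a then (1 : ℂ) else 0) • η b := by
      intro b
      rw [← Finset.sum_smul, ← h2 b a]
      congr 1
      refine Finset.sum_congr rfl fun k _ => ?_
      field_simp
    simp only [e1]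
    simp
  clear_value u
  let S := {k : I // 0 < lam k}
  let e : Fin (Fintype.card S) ≃ S := (Fintype.equivFin S).symm
  have hz : ∀ k, ¬ 0 < lam k → u k = 0 := by
    intro k hk
    have h := hlam k
    have h0 : 0 ≤ ‖u k‖ ^ 2 := by positivity
    have h4 : ‖u k‖ ^ 2 = 0 := by linarith [not_lt.1 hk]
    simpa using h4
  have hsub : ∀ {W : Type} [AddCommMonoid W] (f : I → W), (∀ k, ¬ 0 < lam k → f k = 0) →
      ∑ j : Fin (Fintype.card S), f (e j).1 = ∑ k, f k := by
    intro W _ f hf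
    rw [Equiv.sum_comp e (fun x : S => f x.1), ← Finset.sum_filter_of_ne (p := fun k => 0 < lam k) (s := Finset.univ) (f := f)
      (fun x _ hx => by by_contra h; exact hx (hf x h))]
    exact (Finset.sum_subtype (Finset.univ.filter fun k => 0 < lam k) (fun x => by simp) f).symm
  have hpos : ∀ j, 0 < lam (e j).1 := fun j => (e j).2
  have hrt : ∀ j, (Real.sqrt (lam (e j).1) : ℂ) ≠ 0 := by
    intro j
    exact_mod_cast (Real.sqrt_pos.2 (hpos j)).ne'
  have hrt2 : ∀ j, (Real.sqrt (lam (e j).1) : ℂ) * (Real.sqrt (lam (e j).1) : ℂ) = (lam (e j).1 : ℂ) := by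
    intro j
    rw [← Complex.ofReal_mul, Real.mul_self_sqrt (hpos j).le]
  refine ⟨Fintype.card S, fun j => (Real.sqrt (lam (e j).1) : ℂ)⁻¹ • u (e j).1, fun j a => star (φ (e j).1 a),
    fun j => Real.sqrt (lam (e j).1), ?_, ?_, ?_, ?_⟩
  · rw [orthonormal_iff_ite]
    intro j l
    rw [inner_smul_left, inner_smul_right, huu]
    by_cases hjl : j = l
    · subst hjl
      rw [if_pos rfl, if_pos rfl, ← hrt2, map_inv₀, Complex.conj_ofReal]
      field_simp [hrt j]
    · rw [if_neg (fun h => hjl (e.injective (Subtype.ext h))), if_neg hjl]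
      simp
  · intro j l
    have h := congrArg star (h1 (e j).1 (e l).1)
    rw [star_sum] at h
    simp only [star_mul', star_star] at h ⊢
    rw [h]
    by_cases hjl : j = l
    · subst hjl
      simp
    · rw [if_neg (fun h => hjl (e.injective (Subtype.ext h))), if_neg hjl]
      simp
  · rw [← htr, ← hsub lam (fun k hk => ?_)]
    · exact Finset.sum_congr rfl fun j _ => Real.sq_sqrt (hpos j).le
    · rw [hlam k, hz k hk]
      simp
  · intro a
    rw [hexp a, ← hsub (fun k => star (φ k a) • u k) (fun k hk => by rw [hz k hk, smul_zero])]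
    congr 1
    refine Finset.sum_congr rfl fun j _ => ?_
    rw [smul_smul]
    congr 1
    have h := hrt j
    field_simp

theorem schmidt {V : Type} [NormedAddCommGroup V] [InnerProductSpace ℂ V] {I : Type} [Fintype I] [DecidableEq I] [Nonempty I]
    (η : I → V) (hη : ∀ a, ‖η a‖ = 1) :
    ∃ (d : ℕ) (v : Fin d → V) (s : Fin d → ℝ), Orthonormal ℂ v ∧ ∑ k, s k ^ 2 = 1 ∧
      (∀ T : V →L[ℂ] V, ∑ k, (s k : ℂ) ^ 2 * ⟪v k, T (v k)⟫_ℂ = (∑ a, ⟪η a, T (η a)⟫_ℂ) / Fintype.card I) ∧
      ∀ (T : V →L[ℂ] V) (Y : Matrix I I ℂ), Bd 1 Y → Bd 1 Y.conjTranspose →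
        2 * ((∑ b, ∑ a, ⟪η b, T (η a)⟫_ℂ * Y b a).re / Fintype.card I) - 1 ≤ ∑ k, ∑ l, |s k| * |s l| * ‖⟪v k, T (v l)⟫_ℂ‖ ^ 2 := by
  obtain ⟨d, v, w, s, hv, hw, hs, he⟩ := svd η hη
  have hN0 : (0 : ℝ) < Fintype.card I := by exact_mod_cast Fintype.card_pos
  have hNc : ((Fintype.card I : ℕ) : ℂ) ≠ 0 := by exact_mod_cast hN0.ne'
  have hsq : (Real.sqrt (Fintype.card I) : ℂ) * (Real.sqrt (Fintype.card I) : ℂ) = ((Fintype.card I : ℕ) : ℂ) := by
    rw [← Complex.ofReal_mul, Real.mul_self_sqrt hN0.le]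
    push_cast
    rfl
  have hF : ∀ (T : V →L[ℂ] V) (b a : I), ⟪η b, T (η a)⟫_ℂ =
      (Fintype.card I : ℂ) * ∑ k, ∑ l, (s k : ℂ) * s l * (star (w k b) * w l a) * ⟪v k, T (v l)⟫_ℂ := by
    intro T b a
    rw [he b, he a, map_smul, map_sum, inner_smul_left, inner_smul_right, ← mul_assoc, Complex.conj_ofReal, hsq, sum_inner]
    congr 1
    refine Finset.sum_congr rfl fun k _ => ?_
    rw [inner_sum]
    refine Finset.sum_congr rfl fun l _ => ?_
    rw [map_smul, inner_smul_left, inner_smul_right]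
    simp only [map_mul, Complex.conj_ofReal, RCLike.star_def]
    ring
  refine ⟨d, v, s, hv, hs, fun T => ?_, fun T Y hY hY' => ?_⟩
  · rw [eq_div_iff hNc]
    simp only [hF T, ← Finset.mul_sum]
    rw [mul_comm]
    congr 1
    rw [Finset.sum_comm]
    refine Finset.sum_congr rfl fun k _ => ?_
    rw [Finset.sum_comm]
    have e1 : ∀ l, ∑ a, (s k : ℂ) * s l * (star (w k a) * w l a) * ⟪v k, T (v l)⟫_ℂ =
        if k = l then (s k : ℂ) * s l * ⟪v k, T (v l)⟫_ℂ else 0 := by
      intro l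
      have e2 : ∑ a, (s k : ℂ) * s l * (star (w k a) * w l a) * ⟪v k, T (v l)⟫_ℂ =
          ((s k : ℂ) * s l * ⟪v k, T (v l)⟫_ℂ) * ∑ a, star (w k a) * w l a := by
        rw [Finset.mul_sum]; exact Finset.sum_congr rfl fun a _ => by ring
      rw [e2, hw]
      split_ifs <;> simp
    simp only [e1]
    simp [sq]
  · set x : Fin d → Fin d → ℂ := fun k l => ⟪v k, T (v l)⟫_ℂ with hx
    set y : Fin d → Fin d → ℂ := fun k l => ∑ b, ∑ a, star (w k b) * w l a * Y b a with hy
    have e1 : ∑ b, ∑ a, ⟪η b, T (η a)⟫_ℂ * Y b a = (Fintype.card I : ℂ) * ∑ k, ∑ l, (s k : ℂ) * s l * (x k l * y k l) := by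
      simp only [hF T, hy, Finset.mul_sum, Finset.sum_mul]
      have a1 : ∀ b, ∑ a, ∑ k, ∑ l, (Fintype.card I : ℂ) * ((s k : ℂ) * s l * (star (w k b) * w l a) * ⟪v k, T (v l)⟫_ℂ) * Y b a =
          ∑ k, ∑ l, ∑ a, (Fintype.card I : ℂ) * ((s k : ℂ) * s l * (star (w k b) * w l a) * ⟪v k, T (v l)⟫_ℂ) * Y b a := by
        intro b
        rw [Finset.sum_comm]
        exact Finset.sum_congr rfl fun k _ => Finset.sum_comm
      simp only [a1]
      rw [Finset.sum_comm]
      refine Finset.sum_congr rfl fun k _ => ?_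
      rw [Finset.sum_comm]
      refine Finset.sum_congr rfl fun l _ => Finset.sum_congr rfl fun b _ => Finset.sum_congr rfl fun a _ => ?_
      simp only [hx]
      ring
    have e2 : (∑ b, ∑ a, ⟪η b, T (η a)⟫_ℂ * Y b a).re / Fintype.card I = (∑ k, ∑ l, (s k : ℂ) * s l * (x k l * y k l)).re := by
      rw [e1]
      have : ((Fintype.card I : ℂ) * ∑ k, ∑ l, (s k : ℂ) * s l * (x k l * y k l)).re =
          (Fintype.card I : ℝ) * (∑ k, ∑ l, (s k : ℂ) * s l * (x k l * y k l)).re := by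
        rw [← Complex.re_ofReal_mul]; push_cast; rfl
      rw [this, mul_div_cancel_left₀ _ hN0.ne']
    rw [e2]
    have hwn : ∀ l, ∑ a, ‖w l a‖ ^ 2 = 1 := by
      intro l
      have h := hw l l
      rw [if_pos rfl] at h
      have h' : ∑ a, star (w l a) * w l a = ((∑ a, ‖w l a‖ ^ 2 : ℝ) : ℂ) := by
        push_cast
        refine Finset.sum_congr rfl fun a _ => ?_
        rw [RCLike.star_def, Complex.conj_mul']
      rw [h'] at h
      exact_mod_cast h
    have hyl : ∀ l, ∑ k, ‖y k l‖ ^ 2 ≤ 1 := by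
      intro l
      have a1 : ∀ k, y k l = ∑ b, star (w k b) * (Y.mulVec (w l)) b := by
        intro k
        simp only [hy, Matrix.mulVec, dotProduct, Finset.mul_sum]
        exact Finset.sum_congr rfl fun b _ => Finset.sum_congr rfl fun a _ => by ring
      simp only [a1]
      refine (bess hw _).trans ((hY (w l)).trans ?_)
      rw [hwn]; norm_num
    have hyk : ∀ k, ∑ l, ‖y k l‖ ^ 2 ≤ 1 := by
      intro k
      have a1 : ∀ l, ‖y k l‖ = ‖∑ a, star (w l a) * (Y.conjTranspose.mulVec (w k)) a‖ := by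
        intro l
        rw [← norm_star]
        congr 1
        simp only [hy, Matrix.mulVec, dotProduct, Finset.mul_sum, star_sum, star_mul', star_star, Matrix.conjTranspose_apply]
        rw [Finset.sum_comm]
        exact Finset.sum_congr rfl fun b _ => Finset.sum_congr rfl fun a _ => by ring
      simp only [a1]
      refine (bess hw _).trans ((hY' (w k)).trans ?_)
      rw [hwn]; norm_num
    have hsum : ∑ k, ∑ l, |s k| * |s l| * ‖y k l‖ ^ 2 ≤ 1 := by
      have a1 : ∀ k l, |s k| * |s l| * ‖y k l‖ ^ 2 ≤ s k ^ 2 / 2 * ‖y k l‖ ^ 2 + s l ^ 2 / 2 * ‖y k l‖ ^ 2 := by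
        intro k l
        rw [← add_mul]
        refine mul_le_mul_of_nonneg_right ?_ (sq_nonneg _)
        nlinarith [sq_nonneg (|s k| - |s l|), sq_abs (s k), sq_abs (s l)]
      refine (Finset.sum_le_sum fun k _ => Finset.sum_le_sum fun l _ => a1 k l).trans ?_
      simp only [Finset.sum_add_distrib]
      have b1 : ∑ k, ∑ l, s k ^ 2 / 2 * ‖y k l‖ ^ 2 ≤ 1 / 2 := by
        calc ∑ k, ∑ l, s k ^ 2 / 2 * ‖y k l‖ ^ 2 ≤ ∑ k, s k ^ 2 / 2 := by
              refine Finset.sum_le_sum fun k _ => ?_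
              rw [← Finset.mul_sum]
              nlinarith [hyk k, sq_nonneg (s k)]
          _ = 1 / 2 := by rw [← Finset.sum_div, hs]
      have b2 : ∑ k, ∑ l, s l ^ 2 / 2 * ‖y k l‖ ^ 2 ≤ 1 / 2 := by
        rw [Finset.sum_comm]
        calc ∑ l, ∑ k, s l ^ 2 / 2 * ‖y k l‖ ^ 2 ≤ ∑ l, s l ^ 2 / 2 := by
              refine Finset.sum_le_sum fun l _ => ?_
              rw [← Finset.mul_sum]
              nlinarith [hyl l, sq_nonneg (s l)]
          _ = 1 / 2 := by rw [← Finset.sum_div, hs]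
      linarith
    have hre : (∑ k, ∑ l, (s k : ℂ) * s l * (x k l * y k l)).re ≤
        ∑ k, ∑ l, (|s k| * |s l| * ‖x k l‖ ^ 2 / 2 + |s k| * |s l| * ‖y k l‖ ^ 2 / 2) := by
      rw [Complex.re_sum]
      refine Finset.sum_le_sum fun k _ => ?_
      rw [Complex.re_sum]
      refine Finset.sum_le_sum fun l _ => ?_
      refine (Complex.re_le_norm _).trans ?_
      rw [norm_mul, norm_mul, norm_mul, Complex.norm_real, Complex.norm_real, Real.norm_eq_abs, Real.norm_eq_abs]
      have : 0 ≤ |s k| * |s l| := by positivity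
      nlinarith [mul_nonneg this (sq_nonneg (‖x k l‖ - ‖y k l‖))]
    have hsplit : ∑ k, ∑ l, (|s k| * |s l| * ‖x k l‖ ^ 2 / 2 + |s k| * |s l| * ‖y k l‖ ^ 2 / 2) =
        (∑ k, ∑ l, |s k| * |s l| * ‖x k l‖ ^ 2) / 2 + (∑ k, ∑ l, |s k| * |s l| * ‖y k l‖ ^ 2) / 2 := by
      simp only [Finset.sum_add_distrib, Finset.sum_div]
    rw [hsplit] at hre
    linarith

end QWEP
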