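import Pool.Agent.Lib.MP_47effe_an.K.Net
import Pool.Agent.Lib.MP_47effe_an.K.Joint
import Pool.Agent.Lib.MP_47effe_an.K.Svd
import Pool.Agent.Lib.MP_47effe_an.K.Gns
import Pool.Agent.Lib.MP_47effe_an.K.Mu
import Pool.Agent.Lib.MP_47effe_an.Wc

/-!
# Compact actions on hyperfinite algebras are weakly compact
-/

namespace QWEP

open Finset
open scoped InnerProductSpace

theorem bd_conj {P : Type} [Fintype P] {c : ℝ} {Z : Matrix P P ℂ} (h : Bd c Z) : Bd c (fun b a => star (Z b a) : Matrix P P ℂ) := by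
  intro x
  have h1 : ∀ b, Matrix.mulVec (fun b a => star (Z b a) : Matrix P P ℂ) x b = star (Z.mulVec (fun a => star (x a)) b) := by
    intro b
    simp only [Matrix.mulVec, dotProduct, star_sum, star_mul', star_star]
  simp only [h1, norm_star]
  refine (h _).trans ?_
  simp only [norm_star, le_refl]

theorem bd_block {C P : Type} [Fintype C] [DecidableEq C] [Fintype P] (β : Equiv.Perm C) {Z : C → Matrix P P ℂ}
    (hZ : ∀ c, Bd 1 (Z c)) :
    Bd 1 (fun b a => if b.1 = β a.1 then Z b.1 b.2 a.2 else 0 : Matrix (C × P) (C × P) ℂ) := by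
  intro x
  have h1 : ∀ b1 b2, Matrix.mulVec (fun b a => if b.1 = β a.1 then Z b.1 b.2 a.2 else 0 : Matrix (C × P) (C × P) ℂ) x (b1, b2) =
      (Z b1).mulVec (fun a2 => x (β.symm b1, a2)) b2 := by
    intro b1 b2
    simp only [Matrix.mulVec, dotProduct]
    rw [Fintype.sum_prod_type, sum_eq_single (β.symm b1)]
    · simp only [Equiv.apply_symm_apply, if_true]
    · intro c _ hc
      refine sum_eq_zero fun a2 _ => ?_
      rw [if_neg, zero_mul]
      intro h2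
      apply hc
      rw [h2, Equiv.symm_apply_apply]
    · exact fun h2 => absurd (mem_univ _) h2
  rw [Fintype.sum_prod_type]
  simp only [h1]
  refine (sum_le_sum fun b1 _ => hZ b1 _).trans ?_
  rw [← mul_sum, Equiv.sum_comp β.symm fun c => ∑ a2, ‖x (c, a2)‖ ^ 2, Fintype.sum_prod_type]

variable {A L : Type} [CStarAlgebra A] [Group L] {τ : A →ₗ[ℂ] ℂ} {γ : L →* (A ≃⋆ₐ[ℂ] A)}

theorem compact_data (hτ : TracialState τ) (hγ : ∀ g x, τ (γ g x) = τ x) (hA : Hyperfinite τ) (hc : CompactAction γ τ)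
    (F : Finset (unitary A)) (E : Finset L) (ε : ℝ) (hε : 0 < ε) :
    ∃ (V : Type) (_ : NormedAddCommGroup V) (_ : InnerProductSpace ℂ V) (_ : CompleteSpace V)
      (π : A →⋆ₐ[ℂ] (V →L[ℂ] V)) (U : L →* unitary (V →L[ℂ] V)) (d : ℕ) (w : Fin d → V) (s : Fin d → ℝ),
      (∀ g x, π (γ g x) = U g * π x * star (U g : V →L[ℂ] V)) ∧ Orthonormal ℂ w ∧ ∑ i, s i ^ 2 = 1 ∧
        (∀ u ∈ F, ∀ g ∈ E, 1 - ε ≤ ∑ i, ∑ j, s i * s j * ‖⟪w i, π u ((U g : V →L[ℂ] V) (w j))⟫_ℂ‖ ^ 2) ∧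
        ∀ u ∈ F, ‖∑ i, (s i : ℂ) ^ 2 * ⟪w i, π u (w i)⟫_ℂ - τ u‖ ≤ ε := by
  classical
  obtain ⟨V, _, _, _, π, U, j, hU, hj, hπj, hUj⟩ := exists_gns hτ hγ
  obtain ⟨δ, hδ, hδ1, hδ2⟩ : ∃ δ : ℝ, 0 < δ ∧ δ ≤ 1 ∧ 16 * δ ≤ ε :=
    ⟨min 1 (ε / 16), lt_min one_pos (by positivity), min_le_left _ _, by linarith [min_le_right 1 (ε / 16)]⟩
  obtain ⟨C0, hC0⟩ := joint_net hτ hc (Finset.image (fun u : unitary A => (u : A)) F) hδ
  obtain ⟨n, φ, hφ⟩ := hA ((C0 ×ˢ F).image fun p => γ p.1 (p.2 : A)) δ hδ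
  have h1 : ∀ (g : L), ∀ u ∈ F, ∃ b, n2 τ (γ g u - φ b) ≤ 2 * δ := by
    intro g u hu
    obtain ⟨c, hc, h2⟩ := hC0 g
    obtain ⟨b, hb⟩ := hφ (γ c u) (mem_image.2 ⟨(c, u), mem_product.2 ⟨hc, hu⟩, rfl⟩)
    refine ⟨b, ?_⟩
    have h3 := n2_add hτ (γ g u - γ c u) (γ c u - φ b)
    rw [sub_add_sub_cancel] at h3
    linarith [h2 u (mem_image.2 ⟨u, hu, rfl⟩)]
  have hn : 0 < n := mu_pos φ hτ
  have hn' : (0 : ℝ) < (n : ℝ) ^ 2 := by positivity
  let d : L → L → ℝ := fun g h => ∑ p, n2 τ (γ g (mu φ p) - γ h (mu φ p))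
  have hds : ∀ g h, d g h = d h g := fun g h => sum_congr rfl fun p _ => by rw [← n2_neg, neg_sub]
  have hdt : ∀ g h k, d g k ≤ d g h + d h k := by
    intro g h k
    rw [← sum_add_distrib]
    refine sum_le_sum fun p _ => ?_
    have h2 := n2_add hτ (γ g (mu φ p) - γ h (mu φ p)) (γ h (mu φ p) - γ k (mu φ p))
    rwa [sub_add_sub_cancel] at h2
  have hdi : ∀ k g h, d (k * g) (k * h) = d g h := by
    intro k g h
    refine sum_congr rfl fun p _ => ?_
    rw [map_mul γ, map_mul γ, StarAlgEquiv.mul_apply, StarAlgEquiv.mul_apply, ← map_sub (γ k), n2_map (hγ k)]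
  obtain ⟨C, hCne, hC⟩ := net_perm d hds hdt hdi (δ := (n : ℝ) ^ 2 * δ) (by
    obtain ⟨C, hC⟩ := joint_net hτ hc (univ.image (mu φ)) hδ
    refine ⟨C, fun g => ?_⟩
    obtain ⟨c, hc, h2⟩ := hC g
    refine ⟨c, hc, ?_⟩
    calc d g c ≤ ∑ _p : Fin n × Fin n, δ := sum_le_sum fun p _ => h2 _ (mem_image.2 ⟨p, mem_univ p, rfl⟩)
      _ = (n : ℝ) ^ 2 * δ := by
        rw [sum_const, card_univ, Fintype.card_prod, Fintype.card_fin, nsmul_eq_mul]
        push_cast
        ring)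
  have : Nonempty C := ⟨⟨hCne.choose, hCne.choose_spec⟩⟩
  have : Nonempty (Fin n) := ⟨⟨0, hn⟩⟩
  have hCc : (0 : ℝ) < Fintype.card C := by exact_mod_cast Fintype.card_pos
  have hnorm : ∀ x, ‖j x‖ = n2 τ x := by
    intro x
    have h2 : ‖j x‖ ^ 2 = (τ (star x * x)).re := by
      rw [@InnerProductSpace.norm_sq_eq_re_inner ℂ V, hj]
      rfl
    rw [n2, ← h2, Real.sqrt_sq (norm_nonneg _)]
  have hort : ∀ c : L, Orthonormal ℂ fun p => j (γ c (mu φ p)) := by
    intro c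
    rw [orthonormal_iff_ite]
    intro p q
    rw [hj, ← map_star, ← map_mul, hγ]
    exact mu_ortho φ hτ p q
  have hort1 : Orthonormal ℂ fun p => j (mu φ p) := by
    have h2 := hort 1
    simp only [map_one γ, StarAlgEquiv.one_apply] at h2
    exact h2
  have hπn : ∀ {v : A}, v ∈ unitary A → ∀ x, ‖π v x‖ ≤ 1 * ‖x‖ := by
    intro v hv x
    have h2 : π v ∈ unitary (V →L[ℂ] V) := by
      rw [Unitary.mem_iff] at hv ⊢
      rw [← map_star, ← map_mul, ← map_mul, hv.1, hv.2, map_one]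
      exact ⟨rfl, rfl⟩
    rw [ContinuousLinearMap.norm_map_of_mem_unitary h2, one_mul]
  have hγu : ∀ (c : L) {v : A}, v ∈ unitary A → γ c v ∈ unitary A := fun c v hv => map_unitary (γ c) hv
  have hinv : ∀ (c : L) (x : A), γ c (γ c⁻¹ x) = x := fun c x => by
    rw [← StarAlgEquiv.mul_apply, ← map_mul γ, mul_inv_cancel, map_one γ, StarAlgEquiv.one_apply]
  obtain ⟨d', v, s, hv, hs, h3, h4⟩ := schmidt (I := C × (Fin n × Fin n)) (fun a => j (γ a.1 (mu φ a.2)))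
    (fun a => (hort a.1).1 a.2)
  have hcard : (Fintype.card (C × (Fin n × Fin n)) : ℝ) = Fintype.card C * (n : ℝ) ^ 2 := by
    rw [Fintype.card_prod, Fintype.card_prod, Fintype.card_fin]
    push_cast
    ring
  -- the compressions
  have hm : ∀ (c : L) (x : A) (q p : Fin n × Fin n), ⟪j (γ c (mu φ q)), j (x * γ c (mu φ p))⟫_ℂ =
      τ (star (mu φ q) * (γ c⁻¹ x * mu φ p)) := by
    intro c x q p
    rw [hj, ← hγ c (star (mu φ q) * _), map_mul (γ c), map_mul (γ c), hinv, map_star]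
  refine ⟨V, inferInstance, inferInstance, inferInstance, π, U, d', v, fun k => |s k|, hU, hv, ?_, fun u hu g hg => ?_, fun u hu => ?_⟩
  · simp only [sq_abs, hs]
  · obtain ⟨β, hβ⟩ := hC g
    let Z : C → Matrix (Fin n × Fin n) (Fin n × Fin n) ℂ := fun c q p => star (τ (star (mu φ q) * (γ (c : L)⁻¹ u * mu φ p)))
    have hM : ∀ {y : A}, y ∈ unitary A → Bd 1 (fun q p => τ (star (mu φ q) * (y * mu φ p)) : Matrix (Fin n × Fin n) (Fin n × Fin n) ℂ) := by
      intro y hy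
      have h5 := cmp_bd hort1 (hπn hy)
      have h6 : cmp (fun p => j (mu φ p)) (π y) = (fun q p => τ (star (mu φ q) * (y * mu φ p))) := by
        ext q p
        rw [cmp, hπj, hj]
      rwa [h6] at h5
    have hZ : ∀ c, Bd 1 (Z c) := fun c => bd_conj (hM (hγu _ u.2))
    have hZ' : ∀ c, Bd 1 (Z c).conjTranspose := by
      intro c
      have h5 : (Z c).conjTranspose = (fun q p => star (τ (star (mu φ q) * (γ (c : L)⁻¹ (star (u : A)) * mu φ p))) : Matrix _ _ ℂ) := by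
        ext q p
        rw [Matrix.conjTranspose_apply]
        change star (star (τ (star (mu φ p) * (γ (c : L)⁻¹ u * mu φ q)))) = _
        rw [star_star, ← hj, ← hj, ← inner_conj_symm]
        change star _ = star _
        rw [hj, hj, star_mul, map_star, mul_assoc]
      rw [h5]
      exact bd_conj (hM (hγu _ (Unitary.star_mem u.2)))
    let Y : Matrix (C × (Fin n × Fin n)) (C × (Fin n × Fin n)) ℂ := fun b a => if b.1 = β a.1 then Z b.1 b.2 a.2 else 0
    have hY : Bd 1 Y := bd_block β hZ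
    have hY' : Bd 1 Y.conjTranspose := by
      have h5 : Y.conjTranspose = (fun b a => if b.1 = β.symm a.1 then ((Z (β b.1)).conjTranspose) b.2 a.2 else 0 : Matrix _ _ ℂ) := by
        ext b a
        rw [Matrix.conjTranspose_apply]
        change star (if a.1 = β b.1 then Z a.1 a.2 b.2 else 0) = _
        by_cases h6 : a.1 = β b.1
        · rw [if_pos h6, if_pos (by rw [h6, Equiv.symm_apply_apply]), h6, Matrix.conjTranspose_apply]
        · rw [if_neg h6, if_neg (fun h7 => h6 (by rw [h7, Equiv.apply_symm_apply])), star_zero]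
      rw [h5]
      exact bd_block β.symm (Z := fun c => (Z (β c)).conjTranspose) fun c => hZ' _
    have h5 := h4 (π u * (U g : V →L[ℂ] V)) Y hY hY'
    have hT : ∀ a : C × (Fin n × Fin n), (π u * (U g : V →L[ℂ] V)) (j (γ a.1 (mu φ a.2))) = j (u * γ (g * a.1) (mu φ a.2)) := by
      intro a
      change π u ((U g : V →L[ℂ] V) (j (γ a.1 (mu φ a.2)))) = _
      rw [hUj, hπj, map_mul γ, StarAlgEquiv.mul_apply]
    -- the sum
    have h6 : ∑ b, ∑ a, ⟪j (γ b.1 (mu φ b.2)), (π u * (U g : V →L[ℂ] V)) (j (γ a.1 (mu φ a.2)))⟫_ℂ * Y b a =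
        ∑ c : C, ∑ p, ∑ q, ⟪j (γ (β c) (mu φ q)), j (u * γ (g * c) (mu φ p))⟫_ℂ * Z (β c) q p := by
      rw [sum_comm, Fintype.sum_prod_type]
      refine sum_congr rfl fun c _ => sum_congr rfl fun p _ => ?_
      rw [Fintype.sum_prod_type, sum_eq_single (β c)]
      · refine sum_congr rfl fun q _ => ?_
        rw [hT]
        change _ * (if β c = β c then _ else _) = _
        rw [if_pos rfl]
      · intro c' _ hc'
        refine sum_eq_zero fun q _ => ?_
        change _ * (if c' = β c then _ else _) = _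
        rw [if_neg hc', mul_zero]
      · exact fun h7 => absurd (mem_univ _) h7
    have h7 : ∀ (c : C) (p : Fin n × Fin n), ∑ q, ‖τ (star (mu φ q) * (γ ((β c : C) : L)⁻¹ u * mu φ p))‖ ^ 2 -
        n2 τ (γ (g * c) (mu φ p) - γ (β c) (mu φ p)) ≤
          (∑ q, ⟪j (γ (β c) (mu φ q)), j (u * γ (g * c) (mu φ p))⟫_ℂ * Z (β c) q p).re := by
      intro c p
      have e1 : ∀ q, ⟪j (γ (β c) (mu φ q)), j (u * γ (g * c) (mu φ p))⟫_ℂ * Z (β c) q p =
          ((‖τ (star (mu φ q) * (γ ((β c : C) : L)⁻¹ u * mu φ p))‖ ^ 2 : ℝ) : ℂ) +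
            ⟪j (γ (β c) (mu φ q)), π u (j (γ (g * c) (mu φ p) - γ (β c) (mu φ p)))⟫_ℂ * Z (β c) q p := by
        intro q
        have e2 : j (u * γ (g * c) (mu φ p)) = j (u * γ (β c) (mu φ p)) + π u (j (γ (g * c) (mu φ p) - γ (β c) (mu φ p))) := by
          rw [hπj, ← map_add, mul_sub, add_sub_cancel]
        rw [e2, inner_add_right, hm, add_mul]
        congr 1
        change τ _ * star (τ _) = _
        rw [Complex.ofReal_pow]
        exact RCLike.mul_conj _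
      rw [sum_congr rfl fun q _ => e1 q, sum_add_distrib, Complex.add_re, ← Complex.ofReal_sum, Complex.ofReal_re]
      have e3 : ‖∑ q, ⟪j (γ (β c) (mu φ q)), π u (j (γ (g * c) (mu φ p) - γ (β c) (mu φ p)))⟫_ℂ * Z (β c) q p‖ ≤
          n2 τ (γ (g * c) (mu φ p) - γ (β c) (mu φ p)) := by
        refine (norm_sum_le _ _).trans ?_
        have e4 := sum_mul_sq_le_sq_mul_sq (univ : Finset (Fin n × Fin n))
          (fun q => ‖⟪j (γ (β c) (mu φ q)), π u (j (γ (g * c) (mu φ p) - γ (β c) (mu φ p)))⟫_ℂ‖) (fun q => ‖Z (β c) q p‖)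
        have e5 : ∑ q, ‖⟪j (γ (β c) (mu φ q)), π u (j (γ (g * c) (mu φ p) - γ (β c) (mu φ p)))⟫_ℂ‖ ^ 2 ≤
            n2 τ (γ (g * c) (mu φ p) - γ (β c) (mu φ p)) ^ 2 := by
          refine (hilb_bessel (hort (β c)) _).trans ?_
          rw [← hnorm]
          have e6 := hπn u.2 (j (γ (g * c) (mu φ p) - γ (β c) (mu φ p)))
          rw [one_mul] at e6
          exact pow_le_pow_left₀ (norm_nonneg _) e6 2
        have e6 : ∑ q, ‖Z (β c) q p‖ ^ 2 ≤ 1 := by
          have e7 : ∀ q, ‖Z (β c) q p‖ = ‖⟪j (mu φ q), π (γ ((β c : C) : L)⁻¹ u) (j (mu φ p))⟫_ℂ‖ := by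
            intro q
            rw [hπj, hj]
            exact norm_star _
          simp only [e7]
          refine (hilb_bessel hort1 _).trans ?_
          have e8 := hπn (hγu ((β c : C) : L)⁻¹ u.2) (j (mu φ p))
          rw [hort1.1 p, mul_one] at e8
          exact pow_le_one₀ (norm_nonneg _) e8
        have e7 : (∑ q, ‖⟪j (γ (β c) (mu φ q)), π u (j (γ (g * c) (mu φ p) - γ (β c) (mu φ p)))⟫_ℂ‖ * ‖Z (β c) q p‖) ^ 2 ≤
            n2 τ (γ (g * c) (mu φ p) - γ (β c) (mu φ p)) ^ 2 := by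
          refine e4.trans ((mul_le_mul e5 e6 (sum_nonneg fun _ _ => sq_nonneg _) (sq_nonneg _)).trans (le_of_eq (mul_one _)))
        simp only [norm_mul]
        exact le_of_sq_le_sq e7 (n2_nonneg _)
      have e4 := (abs_le.1 ((Complex.abs_re_le_norm _).trans e3)).1
      linarith
    have h8 : (Fintype.card C : ℝ) * ((1 - (2 * δ) ^ 2) * (n : ℝ) ^ 2) - Fintype.card C * (2 * ((n : ℝ) ^ 2 * δ)) ≤
        (∑ c : C, ∑ p, ∑ q, ⟪j (γ (β c) (mu φ q)), j (u * γ (g * c) (mu φ p))⟫_ℂ * Z (β c) q p).re := by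
      have e1 : (Fintype.card C : ℝ) * ((1 - (2 * δ) ^ 2) * (n : ℝ) ^ 2) - Fintype.card C * (2 * ((n : ℝ) ^ 2 * δ)) =
          ∑ _c : C, ((1 - (2 * δ) ^ 2) * (n : ℝ) ^ 2 - 2 * ((n : ℝ) ^ 2 * δ)) := by
        rw [sum_const, card_univ, nsmul_eq_mul]
        ring
      rw [e1, Complex.re_sum]
      refine sum_le_sum fun c _ => ?_
      rw [Complex.re_sum]
      refine le_trans ?_ (sum_le_sum fun p _ => h7 c p)
      rw [sum_sub_distrib]
      obtain ⟨b, hb⟩ := h1 ((β c : C) : L)⁻¹ u hu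
      have e2 := mu_est φ hτ (hγu ((β c : C) : L)⁻¹ u.2) hb
      have e3 := hβ c
      change ∑ p, n2 τ (γ (g * c) (mu φ p) - γ (β c) (mu φ p)) ≤ _ at e3
      exact sub_le_sub e2 e3
    rw [← h6] at h8
    refine le_trans ?_ h5
    rw [hcard]
    have h9 : 1 - 4 * δ ^ 2 - 2 * δ ≤ (∑ b, ∑ a, ⟪j (γ b.1 (mu φ b.2)), (π u * (U g : V →L[ℂ] V)) (j (γ a.1 (mu φ a.2)))⟫_ℂ * Y b a).re /
        (Fintype.card C * (n : ℝ) ^ 2) := by
      rw [le_div_iff₀ (mul_pos hCc hn')]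
      refine le_trans (le_of_eq ?_) h8
      ring
    have h10 : δ ^ 2 ≤ δ := by nlinarith
    linarith
  · have h5 := h3 (π u)
    have h6 : ∀ k, ((|s k| : ℝ) : ℂ) ^ 2 = (s k : ℂ) ^ 2 := by
      intro k
      rw [← Complex.ofReal_pow, sq_abs, Complex.ofReal_pow]
    simp only [h6]
    have h7 : ∑ a : C × (Fin n × Fin n), ⟪j (γ a.1 (mu φ a.2)), π u (j (γ a.1 (mu φ a.2)))⟫_ℂ =
        (Fintype.card (C × (Fin n × Fin n)) : ℂ) * τ u := by
      rw [Fintype.sum_prod_type]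
      have e1 : ∀ c : C, ∑ p, ⟪j (γ c (mu φ p)), π u (j (γ c (mu φ p)))⟫_ℂ = (n : ℂ) ^ 2 * τ u := by
        intro c
        simp only [hπj, hm]
        rw [mu_trace φ hτ, hγ]
      simp only [e1]
      rw [sum_const, card_univ, nsmul_eq_mul, Fintype.card_prod, Fintype.card_prod, Fintype.card_fin]
      push_cast
      ring
    have h8 : (Fintype.card (C × (Fin n × Fin n)) : ℂ) ≠ 0 := by
      exact_mod_cast Fintype.card_ne_zero
    rw [h5, h7, mul_div_cancel_left₀ _ h8, sub_self, norm_zero]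
    exact hε.le

/-- Compact actions on hyperfinite algebras are weakly compact. -/
theorem weaklyCompact_of_compact (hτ : TracialState τ) (hγ : ∀ g x, τ (γ g x) = τ x) (hA : Hyperfinite τ)
    (hc : CompactAction γ τ) : WeaklyCompact γ τ := by
  intro F E ε hε
  obtain ⟨V, _, _, _, π, U, d, w, s, hU, hw, hs, h1, h2⟩ := compact_data hτ hγ hA hc F E ε hε
  refine ⟨V, inferInstance, inferInstance, inferInstance, ⟨π, U, hU⟩, ⟨d, w, w, s, hw, hw, hs⟩,
    fun u hu => ⟨?_, fun g hg => ?_⟩⟩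
  · have h3 : (⟨d, w, w, s, hw, hw, hs⟩ : Vec V).coef (π u) 1 = ∑ i, (s i : ℂ) ^ 2 * ⟪w i, π u (w i)⟫_ℂ := by
      rw [Vec.coef]
      refine sum_congr rfl fun i _ => ?_
      rw [sum_eq_single i]
      · have h5 := orthonormal_iff_ite.1 hw i i
        rw [if_pos rfl] at h5
        change ((s i * s i : ℝ) : ℂ) * (⟪w i, π u (w i)⟫_ℂ * ⟪w i, w i⟫_ℂ) = _
        rw [h5, mul_one, Complex.ofReal_mul, sq]
      · intro j _ hj
        have h5 := orthonormal_iff_ite.1 hw j i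
        rw [if_neg hj] at h5
        change ((s i * s j : ℝ) : ℂ) * (⟪w i, π u (w j)⟫_ℂ * ⟪w j, w i⟫_ℂ) = 0
        rw [h5, mul_zero, mul_zero]
      · exact fun h4 => absurd (mem_univ i) h4
    change ‖(⟨d, w, w, s, hw, hw, hs⟩ : Vec V).coef (π u) 1 - τ u‖ ≤ ε
    rw [h3]
    exact h2 u hu
  · refine (h1 u hu g hg).trans (le_of_eq ?_)
    rw [Vec.coef, Complex.re_sum]
    refine sum_congr rfl fun i _ => ?_
    rw [Complex.re_sum]
    refine sum_congr rfl fun j _ => ?_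
    change _ = (((s i * s j : ℝ) : ℂ) * (⟪w i, π u ((U g : V →L[ℂ] V) (w j))⟫_ℂ *
      ⟪π u ((U g : V →L[ℂ] V) (w j)), w i⟫_ℂ)).re
    rw [← inner_conj_symm (π u ((U g : V →L[ℂ] V) (w j))) (w i), Complex.mul_conj, Complex.re_ofReal_mul, Complex.ofReal_re,
      Complex.normSq_eq_norm_sq]

end QWEP
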