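import Mathlib

/-! Minimal nets are almost permuted by translations (Hall). -/

namespace QWEP

theorem net_perm {L : Type} [Group L] (d : L → L → ℝ) (hs : ∀ g h, d g h = d h g) (ht : ∀ g h k, d g k ≤ d g h + d h k)
    (hinv : ∀ k g h, d (k * g) (k * h) = d g h) {δ : ℝ} (hnet : ∃ C : Finset L, ∀ g, ∃ c ∈ C, d g c ≤ δ) :
    ∃ C : Finset L, C.Nonempty ∧ ∀ k : L, ∃ β : Equiv.Perm C, ∀ c : C, d (k * c) (β c) ≤ 2 * δ := by
  classical
  have hex : ∃ n : ℕ, ∃ C : Finset L, (∀ g, ∃ c ∈ C, d g c ≤ δ) ∧ C.card = n := by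
    obtain ⟨C, hC⟩ := hnet
    exact ⟨C.card, C, hC, rfl⟩
  obtain ⟨C, hC, hCn⟩ := Nat.find_spec hex
  have hmin : ∀ C' : Finset L, (∀ g, ∃ c ∈ C', d g c ≤ δ) → C.card ≤ C'.card := by
    intro C' hC'
    rw [hCn]
    exact Nat.find_min' hex ⟨C', hC', rfl⟩
  refine ⟨C, ?_, fun k => ?_⟩
  · obtain ⟨c, hc, -⟩ := hC 1
    exact ⟨c, hc⟩
  obtain ⟨t, htd⟩ : ∃ t : C → Finset L, ∀ c : C, t c =
      C.filter (fun c' => ∃ z, d z (k * c) ≤ δ ∧ d z c' ≤ δ) := ⟨_, fun c => rfl⟩
  have hall : ∀ S : Finset C, S.card ≤ (S.biUnion t).card := by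
    intro S
    by_contra hcon
    rw [not_le] at hcon
    obtain ⟨S', hS'⟩ : ∃ S' : Finset L, S' = S.map (Function.Embedding.subtype _) := ⟨_, rfl⟩
    have hS'c : S'.card = S.card := by rw [hS', Finset.card_map]
    have hS'C : S' ⊆ C := by
      intro x hx
      rw [hS', Finset.mem_map] at hx
      obtain ⟨y, -, rfl⟩ := hx
      exact y.2
    have hnet' : ∀ g, ∃ c ∈ (C \ S').image (fun c => k * c) ∪ S.biUnion t, d g c ≤ δ := by
      intro z
      obtain ⟨c, hc, hcd⟩ := hC (k⁻¹ * z)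
      have h1 : d z (k * c) ≤ δ := by
        have h2 := hinv k (k⁻¹ * z) c
        rw [mul_inv_cancel_left] at h2
        rw [h2]
        exact hcd
      by_cases hcS : c ∈ S'
      · obtain ⟨c', hc', hcd'⟩ := hC z
        refine ⟨c', Finset.mem_union_right _ ?_, hcd'⟩
        rw [hS', Finset.mem_map] at hcS
        obtain ⟨y, hy, hyc⟩ := hcS
        rw [Finset.mem_biUnion]
        refine ⟨y, hy, ?_⟩
        rw [htd, Finset.mem_filter]
        have hyc' : (y : L) = c := hyc
        exact ⟨hc', z, by rw [hyc']; exact h1, hcd'⟩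
      · refine ⟨k * c, Finset.mem_union_left _ ?_, h1⟩
        rw [Finset.mem_image]
        exact ⟨c, Finset.mem_sdiff.2 ⟨hc, hcS⟩, rfl⟩
    have h3 := hmin _ hnet'
    have h4 := Finset.card_union_le ((C \ S').image (fun c => k * c)) (S.biUnion t)
    have h5 : ((C \ S').image (fun c => k * c)).card ≤ (C \ S').card := Finset.card_image_le
    have h6 : (C \ S').card = C.card - S'.card := Finset.card_sdiff_of_subset hS'C
    have h7 := Finset.card_le_card hS'C
    omega
  obtain ⟨f, hfi, hft⟩ := (Finset.all_card_le_biUnion_card_iff_exists_injective t).1 hall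
  have hfC : ∀ c, f c ∈ C := by
    intro c
    have := hft c
    rw [htd, Finset.mem_filter] at this
    exact this.1
  have hinj : Function.Injective (fun c : C => (⟨f c, hfC c⟩ : C)) := by
    intro x y hxy
    exact hfi (congrArg Subtype.val hxy)
  refine ⟨Equiv.ofBijective _ (Finite.injective_iff_bijective.1 hinj), fun c => ?_⟩
  have h1 := hft c
  rw [htd, Finset.mem_filter] at h1
  obtain ⟨-, z, hz1, hz2⟩ := h1
  have h2 := ht (k * c) z (f c)
  rw [hs (k * c) z] at h2
  change d (k * c) (f c) ≤ 2 * δ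
  linarith

end QWEP
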